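import Pool.Agent.Helper18.FM.GoalsC
import Pool.Agent.Helper57.HX.Bk

/-! # FM FB3: `rho H + LM ψ' + β` is positive definite for some `ψ'` -/

open Complex Metric Set Filter Topology MeasureTheory
open scoped ContDiff ComplexConjugate ComplexOrder Manifold Matrix

namespace Pool.Agent.Helper43.FM.FB3

open Pool.Agent.Helper95.Lin Pool.Agent.Helper16.Abund Pool.Agent.Helper92.Orb
  Pool.Agent.Helper10.SP Pool.Agent.Helper95.RK Pool.Agent.Helper57.HS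
  Pool.Agent.Helper15.HS Pool.Agent.Helper15.GS Pool.Agent.Helper57.RBC
  Pool.Agent.Helper57.HX Pool.Agent.Helper16.HS.AYTP Pool.Agent.Helper82.HB
  Pool.Agent.Helper18.FM
open Pool.Agent.Helper5.GS (integrableOn_kap cont_det gav_pt)
open Pool.Agent.Helper88.GS (smul_psd smul_pd le_tr_smul)

universe u

section

variable {n : ℕ} {T : Set (Cn n)} {G : Type u} [Group G] {R : G → Cn n → Cn n → Prop}
  {H g β : Cn n → Matrix (Fin n) (Fin n) ℂ}

/-- Existence of the metrics `rho Q = Q - β - δ H`. -/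
theorem ex1 (hAYG : S_AYG.{u}) (hRHOI : S_RHOI.{u})
    (hex : ∀ δ : ℝ, 0 < δ → ∃ Q, TKE T R H δ Q) (hβ : BDat T R H β) {δ : ℝ} (hδ : 0 < δ) :
    ∃ Q, BKE T R H β δ Q := by
  obtain ⟨Q', hQ'⟩ := hex δ hδ
  have hX : KEt T R fun x => Q' x + β x :=
    Pool.Agent.Helper61.GS.ket_add hQ'.ket hβ.chf hβ.inv hβ.psd
  obtain ⟨Q, hQ, hQe⟩ := step hAYG hRHOI hQ'.ket hX
  refine ⟨Q, hQ, fun x hx => ?_⟩
  rw [hQe x hx, hQ'.eq x hx]
  abel

/-- Bounds of the volumes. -/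
theorem v0 (hRHOI : S_RHOI.{u}) (hMOMG : S_MOMG.{u})
    (hNULL0 : Pool.Agent.Helper95.HS.S_NULL0.{u}) (hH : KEt T R H)
    (hex : ∀ δ : ℝ, 0 < δ → ∃ Q, BKE T R H β δ Q)
    (hβ : BDat T R H β) {κ : Cn n → ℝ} (hκ : IsPUE T R κ) :
    ∃ V0 V1 : ℝ, 0 < V0 ∧ ∀ s : ℝ, 0 ≤ s → s ≤ 2 →
      V0 ≤ ∫ x in T, κ x * (rho H x + β x + (s : ℂ) • H x).det.re ∧
      ∫ x in T, κ x * (rho H x + β x + (s : ℂ) • H x).det.re ≤ V1 := by
  have hT : IsOpen T := hH.et.isOpen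
  obtain ⟨hr1, -⟩ := hRHOI T R H hH.et (her_ket hH)
  set f : ℝ → ℝ := fun s => ∫ x in T, κ x * (rho H x + β x + (s : ℂ) • H x).det.re with hf
  have hc : ContinuousOn f (Icc (0 : ℝ) 2) := Pool.Agent.Helper15.RBC.cont_vol hT hκ.test
    (A := fun x => rho H x + β x) (H := H)
    (fun i j => ((hr1.smooth i j).continuousOn).add (hβ.chf.smooth i j).continuousOn)
    fun i j => (hH.smooth i j).continuousOn
  have hpos : ∀ s : ℝ, 0 ≤ s → 0 < f s := by
    intro s hs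
    rcases hs.eq_or_lt with rfl | hs
    · have h0 := hβ.vol κ hκ
      simp only [hf, Complex.ofReal_zero, zero_smul, add_zero]
      exact h0
    · obtain ⟨Q, hQ⟩ := hex s hs
      have h1 := xvb hRHOI hMOMG hH hβ hκ hQ 0
      rw [add_zero] at h1
      have h2 : f s = Pool.Agent.Helper95.HS.vol T κ Q := by
        simp only [hf]
        rw [← h1]
        unfold Pool.Agent.Helper95.HS.vol
        simp
      rw [h2]
      exact (hNULL0 T R Q hQ.1 κ hκ).1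
  have hne : (Icc (0 : ℝ) 2).Nonempty := ⟨0, by norm_num, by norm_num⟩
  obtain ⟨s0, hs0, hmin⟩ := isCompact_Icc.exists_isMinOn hne hc
  obtain ⟨s1, hs1, hmax⟩ := isCompact_Icc.exists_isMaxOn hne hc
  exact ⟨f s0, f s1, hpos s0 hs0.1, fun s hs hs2 => ⟨hmin ⟨hs, hs2⟩, hmax ⟨hs, hs2⟩⟩⟩

/-- The average of the trace of `g` is bounded. -/
theorem av (hTRC : Pool.Agent.Helper95.HS.S_TRC) (hRHOI : S_RHOI.{u}) (hMOMG : S_MOMG.{u})
    (hRHB : S_RHB.{u}) (hH : KEt T R H) (hgp : ∀ x ∈ T, (g x).PosSemidef)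
    (hgs : ∀ i j, ContDiffOn ℝ ∞ (fun x => g x i j) T) (hgi : InvH R g)
    (hβ : BDat T R H β) {κ : Cn n → ℝ} (hκ : IsPUE T R κ) {V0 V1 : ℝ} (hV0 : 0 < V0)
    (hV : ∀ s : ℝ, 0 ≤ s → s ≤ 2 →
      V0 ≤ ∫ x in T, κ x * (rho H x + β x + (s : ℂ) • H x).det.re ∧
      ∫ x in T, κ x * (rho H x + β x + (s : ℂ) • H x).det.re ≤ V1) :
    ∃ C : ℝ, 0 ≤ C ∧ ∀ (δ : ℝ) (Q : Cn n → Matrix (Fin n) (Fin n) ℂ), 0 < δ → δ ≤ 1 →
      BKE T R H β δ Q →
      ∫ x in T, κ x * (Q x).det.re * ((Matrix.trace (g x * (Q x)⁻¹)).re + 1) ≤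
        C * Pool.Agent.Helper95.HS.vol T κ Q := by
  obtain ⟨K, hK, hKb⟩ := hRHB T R H hH.et (her_ket hH) g
    (fun x hx => (hgp x hx).isHermitian) (fun i j => (hgs i j).continuousOn) hgi
  have hV01 : V0 ≤ V1 := (hV 0 le_rfl (by norm_num)).1.trans (hV 0 le_rfl (by norm_num)).2
  have hT : IsOpen T := hH.et.isOpen
  have hV1 : 0 < V1 := hV0.trans_le hV01
  refine ⟨K * V1 / V0 + 1, by positivity, ?_⟩
  intro δ Q hδ hδ1 hQ
  have hk := hQ.1
  have hsm1 : ∀ i j, ContDiffOn ℝ ∞ (fun x => (Q x + ((1 : ℝ) : ℂ) • H x) i j) T := by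
    intro i j
    simp only [Matrix.add_apply, Complex.ofReal_one, one_smul]
    exact (hk.smooth i j).add (hH.smooth i j)
  have hi0 : IntegrableOn (fun x => κ x * (Q x).det.re) T :=
    integrableOn_kap hT hκ.test (cont_det hk.smooth)
  have hi1 : IntegrableOn (fun x => κ x * (Q x + ((1 : ℝ) : ℂ) • H x).det.re) T :=
    integrableOn_kap hT hκ.test (cont_det hsm1)
  have hvol : V0 ≤ Pool.Agent.Helper95.HS.vol T κ Q := by
    have h1 := xvb hRHOI hMOMG hH hβ hκ hQ 0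
    rw [add_zero] at h1
    have h2 : Pool.Agent.Helper95.HS.vol T κ Q =
        ∫ x in T, κ x * (Q x + ((0 : ℝ) : ℂ) • H x).det.re := by
      unfold Pool.Agent.Helper95.HS.vol
      simp
    rw [h2, h1]
    exact (hV δ hδ.le (by linarith)).1
  have hV1b : ∫ x in T, κ x * (Q x + ((1 : ℝ) : ℂ) • H x).det.re ≤ V1 := by
    rw [xvb hRHOI hMOMG hH hβ hκ hQ 1]
    exact (hV (δ + 1) (by linarith) (by linarith)).2
  have hpt : ∀ x ∈ T, 0 ≤ (Q x).det.re * (Matrix.trace (g x * (Q x)⁻¹)).re ∧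
      (Q x).det.re * (Matrix.trace (g x * (Q x)⁻¹)).re ≤
        K * ((Q x + ((1 : ℝ) : ℂ) • H x).det.re - (Q x).det.re) := by
    intro x hx
    have hQx := hk.posDef x hx
    have hd : 0 < (Q x).det.re := (Complex.pos_iff.1 hQx.det_pos).1
    have h1 := (gav_pt hTRC (Q x) (H x) (H x) hQx (hH.posDef x hx) (hH.posDef x hx) 1
      one_pos (by
        rw [Complex.ofReal_one, one_smul, sub_self]
        exact Matrix.PosSemidef.zero)).2
    rw [inv_one, one_mul] at h1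
    have h2 := tr_mul_nonneg (hKb x hx).2 hQx.posSemidef.inv
    rw [Matrix.sub_mul, Matrix.trace_sub, Matrix.smul_mul, Matrix.trace_smul, smul_eq_mul,
      Complex.sub_re, Complex.re_ofReal_mul] at h2
    have h3 := tr_mul_nonneg (hgp x hx) hQx.posSemidef.inv
    refine ⟨mul_nonneg hd.le h3, ?_⟩
    calc (Q x).det.re * (Matrix.trace (g x * (Q x)⁻¹)).re
        ≤ (Q x).det.re * (K * (Matrix.trace (H x * (Q x)⁻¹)).re) :=
          mul_le_mul_of_nonneg_left (by linarith) hd.le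
      _ = K * ((Q x).det.re * (Matrix.trace (H x * (Q x)⁻¹)).re) := by ring
      _ ≤ _ := mul_le_mul_of_nonneg_left h1 hK.le
  have hmono : ∫ x in T, κ x * (Q x).det.re * ((Matrix.trace (g x * (Q x)⁻¹)).re + 1) ≤
      ∫ x in T, (K * (κ x * (Q x + ((1 : ℝ) : ℂ) • H x).det.re - κ x * (Q x).det.re) +
        κ x * (Q x).det.re) := by
    refine integral_mono_of_nonneg ?_ (((hi1.sub hi0).const_mul _).add hi0) ?_
    · refine (ae_restrict_iff' hT.measurableSet).2 (Eventually.of_forall fun x hx => ?_)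
      have h1 := mul_nonneg (hκ.nonneg x) (hpt x hx).1
      have h2 : 0 < (Q x).det.re := (Complex.pos_iff.1 (hk.posDef x hx).det_pos).1
      have h3 := mul_nonneg (hκ.nonneg x) h2.le
      simp only [Pi.zero_apply]
      nlinarith
    · refine (ae_restrict_iff' hT.measurableSet).2 (Eventually.of_forall fun x hx => ?_)
      have := mul_le_mul_of_nonneg_left (hpt x hx).2 (hκ.nonneg x)
      simp only
      linarith
  have hi2 : IntegrableOn (fun x => K * (κ x * (Q x + ((1 : ℝ) : ℂ) • H x).det.re -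
      κ x * (Q x).det.re)) T := (hi1.sub hi0).const_mul K
  have hsp : ∫ x in T, (K * (κ x * (Q x + ((1 : ℝ) : ℂ) • H x).det.re - κ x * (Q x).det.re) +
      κ x * (Q x).det.re) = K * ((∫ x in T, κ x * (Q x + ((1 : ℝ) : ℂ) • H x).det.re) -
      ∫ x in T, κ x * (Q x).det.re) + ∫ x in T, κ x * (Q x).det.re := by
    rw [integral_add hi2 hi0, integral_const_mul, integral_sub hi1 hi0]
  rw [hsp] at hmono
  have h5 : ∫ x in T, κ x * (Q x).det.re = Pool.Agent.Helper95.HS.vol T κ Q := rfl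
  rw [h5] at hmono
  set V := Pool.Agent.Helper95.HS.vol T κ Q with hVdef
  have hVp : 0 < V := hV0.trans_le hvol
  have h6 : K * V1 ≤ K * V1 / V0 * V := by
    rw [div_mul_eq_mul_div, le_div_iff₀ hV0]
    exact mul_le_mul_of_nonneg_left hvol (by positivity)
  have h7 : K * (∫ x in T, κ x * (Q x + ((1 : ℝ) : ℂ) • H x).det.re) ≤ K * V1 :=
    mul_le_mul_of_nonneg_left hV1b hK.le
  have h8 : 0 ≤ K * V := by positivity
  refine hmono.trans ?_
  rw [mul_sub, add_mul, one_mul]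
  linarith

/-- The uniform bound of the trace of `g`. -/
theorem bd (hTRC : Pool.Agent.Helper95.HS.S_TRC) (hRHOI : S_RHOI.{u}) (hMOMG : S_MOMG.{u})
    (hNULL0 : Pool.Agent.Helper95.HS.S_NULL0.{u})
    (hRHB : S_RHB.{u}) (hPUE : S_PUE.{u})
    (hSBG : Pool.Agent.Helper95.HS.S_SBG.{u}) (hDENS : Pool.Agent.Helper95.HS.S_DENS.{u})
    (hTRI : Pool.Agent.Helper95.HS.S_TRI.{u}) (hn : 0 < n)
    (hH : KEt T R H) (hgp : ∀ x ∈ T, (g x).PosSemidef)
    (hgs : ∀ i j, ContDiffOn ℝ ∞ (fun x => g x i j) T) (hgi : InvH R g)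
    (hex : ∀ δ : ℝ, 0 < δ → ∃ Q, BKE T R H β δ Q) (hβ : BDat T R H β)
    (hlg : ∀ (δ : ℝ) (Q : Cn n → Matrix (Fin n) (Fin n) ℂ), 0 < δ → BKE T R H β δ Q → ∀ x ∈ T,
      -1 ≤ (trL Q (fun y => Real.log ((Matrix.trace (g y * (Q y)⁻¹)).re + 1)) x).re) :
    ∃ B : ℝ, 0 < B ∧ ∀ (δ : ℝ) (Q : Cn n → Matrix (Fin n) (Fin n) ℂ), 0 < δ → δ ≤ 1 →
      BKE T R H β δ Q → ∀ x ∈ T, (Matrix.trace (g x * (Q x)⁻¹)).re ≤ B := by
  have hE := hH.et
  have hT := hE.isOpen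
  obtain ⟨κ, hκ⟩ := hPUE T R hE
  obtain ⟨hr1, hr2, -, hr4, hr5⟩ := hRHOI T R H hE (her_ket hH)
  obtain ⟨V0, V1, hV0, hV⟩ := v0 hRHOI hMOMG hNULL0 hH hex hβ hκ
  obtain ⟨C2, hC2, hAv⟩ := av hTRC hRHOI hMOMG hRHB hH hgp hgs hgi hβ hκ hV0 hV
  -- the bound of the fixed forms
  obtain ⟨K0, hK0, hK0b⟩ := hRHB T R H hE (her_ket hH) (fun x => rho H x + β x)
    (fun x hx => (hr1.herm x hx).add (hβ.psd x hx).isHermitian)
    (fun i j => ((hr1.smooth i j).continuousOn).add ((hβ.chf.smooth i j).continuousOn))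
    (Pool.Agent.Helper97.HS.invH_ad hr2 hβ.inv)
  set a : ℝ := K0 + 1 with ha
  obtain ⟨K, hK, hDb⟩ := hDENS T R H hH κ hκ a
  obtain ⟨C', hSb⟩ := hSBG hn T R H hH κ hκ a K
  refine ⟨|C'| * C2 + 1, by positivity, ?_⟩
  intro δ Q hδ hδ1 hQ x hx
  have hQk := hQ.1
  obtain ⟨hφi, hφ⟩ := hr5 Q (her_ket hQk)
  have hLM : ∀ y ∈ T, LM (fun y => ld Q y - ld H y) y = Q y - β y - (δ : ℂ) • H y - rho H y := by
    intro y hy
    have h1 := hφ y hy
    have h2 := hQ.2 y hy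
    rw [h2] at h1
    rw [h1]
    abel
  have hHd : ∀ y ∈ T, (((1 - δ : ℝ) : ℂ) • H y).PosSemidef := fun y hy =>
    smul_psd (hH.posDef y hy).posSemidef (by linarith)
  have p1 : ∀ y ∈ T, ((a : ℂ) • H y - (Q y - LM (fun y => ld Q y - ld H y) y)).PosSemidef := by
    intro y hy
    have e : (a : ℂ) • H y - (Q y - LM (fun y => ld Q y - ld H y) y) =
        ((K0 : ℂ) • H y - (rho H y + β y)) + ((1 - δ : ℝ) : ℂ) • H y := by
      rw [hLM y hy, ha]
      push_cast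
      rw [add_smul, sub_smul]
      abel
    rw [e]
    exact (hK0b y hy).2.add (hHd y hy)
  have p2 : ∀ y ∈ T, ((a : ℂ) • H y + LM (fun y => ld Q y - ld H y) y).PosSemidef := by
    intro y hy
    have e : (a : ℂ) • H y + LM (fun y => ld Q y - ld H y) y =
        ((K0 : ℂ) • H y - (rho H y + β y)) + ((1 - δ : ℝ) : ℂ) • H y + Q y := by
      rw [hLM y hy, ha]
      push_cast
      rw [add_smul, sub_smul]
      abel
    rw [e]
    exact ((hK0b y hy).2.add (hHd y hy)).add (hQk.posDef y hy).posSemidef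
  have hdens := hDb Q hQk p2
  have hti : InvF T R (fun x => (Matrix.trace (g x * (Q x)⁻¹)).re) :=
    (hTRI T R Q hQk).1 g hgs hgi
  have g1 : InvF T R (fun x => (Matrix.trace (g x * (Q x)⁻¹)).re + 1) := by
    refine ⟨hti.1.add contDiffOn_const, fun γ x y hR => ?_⟩
    have := hti.2 γ x y hR
    simp only at this ⊢
    rw [this]
  have g2 : ∀ y ∈ T, 0 < (Matrix.trace (g y * (Q y)⁻¹)).re + 1 := by
    intro y hy
    have := tr_mul_nonneg (hgp y hy) (hQk.posDef y hy).posSemidef.inv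
    linarith
  have s1 := hSb Q (fun y => ld Q y - ld H y)
    (fun y => (Matrix.trace (g y * (Q y)⁻¹)).re + 1) hQk hφi p1 hdens g1 g2 (hlg δ Q hδ hQ) x hx
  have s2 := hAv δ Q hδ hδ1 hQ
  have hVp : 0 < Pool.Agent.Helper95.HS.vol T κ Q := (hNULL0 T R Q hQk κ hκ).1
  have hI : 0 ≤ ∫ y in T, κ y * (Q y).det.re * ((Matrix.trace (g y * (Q y)⁻¹)).re + 1) := by
    apply setIntegral_nonneg hT.measurableSet
    intro y hy
    have hd : 0 < (Q y).det.re := (Complex.pos_iff.1 (hQk.posDef y hy).det_pos).1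
    exact mul_nonneg (mul_nonneg (hκ.nonneg y) hd.le) (g2 y hy).le
  have s3 : ((Matrix.trace (g x * (Q x)⁻¹)).re + 1) * Pool.Agent.Helper95.HS.vol T κ Q ≤
      |C'| * C2 * Pool.Agent.Helper95.HS.vol T κ Q := by
    refine s1.trans ?_
    calc C' * ∫ y in T, κ y * (Q y).det.re * ((Matrix.trace (g y * (Q y)⁻¹)).re + 1)
        ≤ |C'| * ∫ y in T, κ y * (Q y).det.re * ((Matrix.trace (g y * (Q y)⁻¹)).re + 1) :=
          mul_le_mul_of_nonneg_right (le_abs_self _) hI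
      _ ≤ |C'| * (C2 * Pool.Agent.Helper95.HS.vol T κ Q) :=
          mul_le_mul_of_nonneg_left s2 (abs_nonneg _)
      _ = _ := by ring
  have s4 : (Matrix.trace (g x * (Q x)⁻¹)).re + 1 ≤ |C'| * C2 :=
    le_of_mul_le_mul_right s3 hVp
  linarith

end

/-- FB3. -/
theorem t (hAYG : S_AYG.{u}) (hWIRT : S_WIRT) (hRHOI : S_RHOI.{u}) (hMOMG : S_MOMG.{u})
    (hNULL0 : Pool.Agent.Helper95.HS.S_NULL0.{u}) (hTRC : Pool.Agent.Helper95.HS.S_TRC)
    (hRHB : S_RHB.{u}) (hPUE : S_PUE.{u}) (hCMPG : S_CMPG.{u})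
    (hSBG : Pool.Agent.Helper95.HS.S_SBG.{u}) (hDENS : Pool.Agent.Helper95.HS.S_DENS.{u})
    (hTRI : Pool.Agent.Helper95.HS.S_TRI.{u}) (hFCL : S_FCL.{u}) (hFLG : S_FLG.{u})
    (hFEX : S_FEX.{u}) (hFFM : S_FFM.{u}) : Pool.Agent.Helper18.FM.S_FB3.{u} := by
  intro n m hn T G _ R H σ h χ c ψ D r P hP hvol
  have hH := D.ket
  have hE := hH.et
  have hT := hE.isOpen
  obtain ⟨hr1, hr2, -, hr4, hr5⟩ := hRHOI T R H hE (her_ket hH)
  obtain ⟨hp1, hp2⟩ := hr4 ψ D.psi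
  have hχc := (hFFM T R H σ h χ c ψ D).1
  have hc0 := D.c0
  -- the form `g`
  obtain ⟨Q₀, hQ₀⟩ := hFEX T R H σ h χ c ψ D H hH 1 one_pos
  have hgs : ∀ i j, ContDiffOn ℝ ∞ (fun x => gS σ h x i j) T :=
    (hFCL T R σ h D.sf H (fun x => H x - rho H x) hH fun x _ => by abel).1
  have hgp : ∀ x ∈ T, (gS σ h x).PosSemidef := fun x hx =>
    (D.sf.posDef x hx).posSemidef.mul_mul_conjTranspose_same (σ x)
  have hgi : InvH R (gS σ h) := D.sf.inv
  -- the form `β`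
  set b : Cn n → Matrix (Fin n) (Fin n) ℂ := gS (fun x => σ x * P x) h with hb
  have hbp : ∀ x ∈ T, (b x).PosSemidef := fun x hx =>
    (D.sf.posDef x hx).posSemidef.mul_mul_conjTranspose_same (σ x * P x)
  have hbc : CHF b T := hP.par.chf
  have hbi : InvH R b := hP.par.inv
  have hχp : ∀ x ∈ T, (χ x).PosSemidef := D.pf.psd
  have hχe : ∀ x ∈ T, χ x = (c : ℂ) • rho H x + LM (fun y => c * ψ y) x := D.chi'
  have hcψ : InvF T R (fun y => c * ψ y) := by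
    refine ⟨contDiffOn_const.mul D.psi.1, fun γ x y hR => ?_⟩
    have h1 := D.psi.2 γ x y hR
    simp only
    rw [h1]
  have hβ : BDat T R H (fun x => b x + χ x) := by
    refine ⟨Pool.Agent.Helper97.HS.chf_ad hT hbc hχc,
      Pool.Agent.Helper97.HS.invH_ad hbi D.pf.inv,
      fun x hx => (hbp x hx).add (hχp x hx), fun κ hκ => ?_⟩
    have h1 := hvol κ hκ
    have hZ : CHF (fun x => ((1 + c : ℝ) : ℂ) • rho H x + b x) T :=
      Pool.Agent.Helper97.HS.chf_ad hT (Pool.Agent.Helper97.HS.chf_sm hT hr1 (1 + c)) hbc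
    have hZI : InvH R (fun x => ((1 + c : ℝ) : ℂ) • rho H x + b x) :=
      Pool.Agent.Helper97.HS.invH_ad (Pool.Agent.Helper97.HS.invH_sm hr2 ((1 + c : ℝ) : ℂ)) hbi
    rw [← hMOMG T R H hH κ hκ _ hZ hZI _ hcψ] at h1
    refine h1.trans_eq (setIntegral_congr_fun hT.measurableSet fun x hx => ?_)
    have h2 : rho H x + (b x + χ x) = ((1 + c : ℝ) : ℂ) • rho H x + b x +
        LM (fun y => c * ψ y) x := by
      rw [hχe x hx]
      push_cast
      module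
    show κ x * (((1 + c : ℝ) : ℂ) • rho H x + b x + LM (fun y => c * ψ y) x).det.re =
      κ x * (rho H x + (b x + χ x)).det.re
    rw [h2]
  have hex : ∀ δ : ℝ, 0 < δ → ∃ Q, BKE T R H (fun x => b x + χ x) δ Q := fun δ hδ =>
    ex1 hAYG hRHOI (fun δ' hδ' => hFEX T R H σ h χ c ψ D H hH δ' hδ') hβ hδ
  have hlg : ∀ (δ : ℝ) (Q : Cn n → Matrix (Fin n) (Fin n) ℂ), 0 < δ →
      BKE T R H (fun x => b x + χ x) δ Q → ∀ x ∈ T,
      -1 ≤ (trL Q (fun y => Real.log ((Matrix.trace (gS σ h y * (Q y)⁻¹)).re + 1)) x).re := by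
    intro δ Q hδ hQ
    exact ((hFLG T R σ h χ D.sf D.trb Q (fun x => (b x + χ x) + (δ : ℂ) • H x) hQ.1
      (fun y hy => by
        have e : b y + χ y + (δ : ℂ) • H y - χ y = b y + (δ : ℂ) • H y := by abel
        rw [e]
        exact (hbp y hy).add (smul_psd (hH.posDef y hy).posSemidef hδ.le))
      (fun y hy => by rw [hQ.2 y hy, sub_sub])).2 1 one_pos).2
  obtain ⟨B, hB, hkey⟩ := bd hTRC hRHOI hMOMG hNULL0 hRHB hPUE hSBG hDENS hTRI hn hH hgp hgs hgi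
    hex hβ hlg
  -- the lower bound
  have hYher : HerT T R (fun x => rho H x + LM ψ x + gS σ h x) := by
    refine ⟨D.pos, fun i j => ?_, ?_⟩
    · exact ((hr1.smooth i j).add (hp1.smooth i j)).add (hgs i j)
    · exact Pool.Agent.Helper97.HS.invH_ad (Pool.Agent.Helper97.HS.invH_ad hr2 hp2) hgi
  obtain ⟨c₁, C, hc₁, hC, hcmp⟩ := hCMPG T R H _ hH hYher
  set c' : ℝ := C⁻¹ with hc'
  have hc'0 : 0 < c' := inv_pos.2 hC
  have hcY : ∀ x ∈ T, (rho H x + LM ψ x + gS σ h x - (c' : ℂ) • H x).PosSemidef := by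
    intro x hx
    have h1 := ((hcmp x hx).2).smul (Complex.zero_le_real.2 hc'0.le)
    have e : (c' : ℂ) • ((C : ℂ) • (rho H x + LM ψ x + gS σ h x) - H x) =
        rho H x + LM ψ x + gS σ h x - (c' : ℂ) • H x := by
      rw [smul_sub, smul_smul, ← Complex.ofReal_mul, hc', inv_mul_cancel₀ hC.ne',
        Complex.ofReal_one, one_smul]
    rwa [e] at h1
  -- the choice of `δ`
  set d : ℝ := B⁻¹ with hd
  have hd0 : 0 < d := inv_pos.2 hB
  have hd1 : 0 < 1 + c + d := by linarith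
  set δ : ℝ := min 1 (d * c' / 2) with hδ
  have hδ0 : 0 < δ := lt_min one_pos (by positivity)
  have hδ1 : δ ≤ 1 := min_le_left _ _
  have hδ2 : δ ≤ d * c' / 2 := min_le_right _ _
  obtain ⟨Q, hQ⟩ := hex δ hδ0
  have hQk := hQ.1
  have hdt : ∀ x ∈ T, d * (Matrix.trace (gS σ h x * (Q x)⁻¹)).re ≤ 1 := by
    intro x hx
    have h1 := mul_le_mul_of_nonneg_left (hkey δ Q hδ0 hδ1 hQ x hx) hd0.le
    rwa [hd, inv_mul_cancel₀ hB.ne'] at h1
  obtain ⟨hwi, hwr⟩ := hr5 Q (her_ket hQk)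
  set w : Cn n → ℝ := fun x => ld Q x - ld H x with hw
  set e₀ : ℝ := (1 + c + d)⁻¹ with he₀
  have he0 : 0 < e₀ := inv_pos.2 hd1
  have hed : e₀ * (1 + c + d) = 1 := inv_mul_cancel₀ hd1.ne'
  have he1 : e₀ ≤ 1 := inv_le_one_of_one_le₀ (by linarith)
  refine ⟨fun x => e₀ * w x + (e₀ * (c + d)) * ψ x, invF_lin hwi D.psi e₀ (e₀ * (c + d)),
    fun x hx => ?_⟩
  rw [Pool.Agent.Helper94.HS.LM_lin hWIRT hT hwi.1 D.psi.1 e₀ (e₀ * (c + d)) hx]
  have h1 : rho Q x = Q x - (b x + χ x) - (δ : ℂ) • H x := hQ.2 x hx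
  rw [hwr x hx] at h1
  have h2 : Q x = rho H x + LM w x + (b x + χ x) + (δ : ℂ) • H x := by
    rw [h1]; abel
  have h3 : χ x = (c : ℂ) • (rho H x + LM ψ x) := D.chi x hx
  have e : rho H x + ((e₀ : ℂ) • LM w x + ((e₀ * (c + d) : ℝ) : ℂ) • LM ψ x) + b x =
      (e₀ : ℂ) • ((Q x - (d : ℂ) • gS σ h x) +
        (d : ℂ) • (rho H x + LM ψ x + gS σ h x - (c' : ℂ) • H x) +
        ((d * c' - δ : ℝ) : ℂ) • H x) + ((1 - e₀ : ℝ) : ℂ) • b x := by
    have h4 : rho H x = ((e₀ * (1 + c + d) : ℝ) : ℂ) • rho H x := by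
      rw [hed, Complex.ofReal_one, one_smul]
    rw [h2, h3]
    conv_lhs => rw [h4]
    push_cast
    module
  rw [e]
  refine Matrix.PosDef.add_posSemidef (Matrix.PosDef.smul ?_ (Complex.zero_lt_real.2 he0))
    (smul_psd (hbp x hx) (by linarith))
  refine Matrix.PosDef.posSemidef_add ?_ ((hH.posDef x hx).smul
    (Complex.zero_lt_real.2 (by nlinarith)))
  exact (sub_psd (hQk.posDef x hx) (hgp x hx) hd0.le (hdt x hx)).add
    ((hcY x hx).smul (Complex.zero_le_real.2 hd0.le))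

end Pool.Agent.Helper43.FM.FB3
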